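import Pool.Agent.H901R3.MS.P_PLK
import Pool.Agent.W659.FK.Stm

set_option autoImplicit false

namespace Pool.Agent.W496.FK.PLQ

open NumberField Pool.Agent.H901R3.MS Pool.Agent.H901R3.MS.W_PLK

theorem main : Pool.Agent.W659.FK.S_PLQ := by
  intro K _ _ k _ _ φ _
  have hprime : (RingHom.ker φ).IsPrime := RingHom.ker_isPrime φ
  generalize hP : RingHom.ker φ = P at hprime
  have hPne : P ≠ ⊥ := by
    intro h0
    obtain ⟨p, hp⟩ := CharP.exists k
    have hp0 : p ≠ 0 := CharP.char_ne_zero_of_finite k p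
    have h1 : ((p : ℕ) : 𝓞 K) ∈ P := by
      rw [← hP, RingHom.mem_ker, map_natCast, CharP.cast_eq_zero]
    rw [h0, Ideal.mem_bot, Nat.cast_eq_zero] at h1
    exact hp0 h1
  have hmem : ∀ x : 𝓞 K, x ∈ P ↔ φ x = 0 := fun x => by rw [← hP, RingHom.mem_ker]
  haveI : IsDiscreteValuationRing (Localization.AtPrime P) :=
    IsLocalization.AtPrime.isDiscreteValuationRing_of_dedekind_domain (𝓞 K) hPne _
  have hg : ∀ y : P.primeCompl, IsUnit (algebraMap (𝓞 K) K y) := by
    intro y
    rw [isUnit_iff_ne_zero, Ne, FaithfulSMul.algebraMap_eq_zero_iff]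
    intro h0
    exact y.2 (h0 ▸ P.zero_mem)
  have hφ : ∀ y : P.primeCompl, IsUnit (φ y) := by
    intro y
    rw [isUnit_iff_ne_zero]
    intro h0
    exact y.2 ((hmem _).2 h0)
  letI : Algebra (Localization.AtPrime P) K :=
    (IsLocalization.lift (M := P.primeCompl) hg : Localization.AtPrime P →+* K).toAlgebra
  haveI : IsScalarTower (𝓞 K) (Localization.AtPrime P) K :=
    IsScalarTower.of_algebraMap_eq fun x => (IsLocalization.lift_eq hg x).symm
  haveI : IsFractionRing (Localization.AtPrime P) K :=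
    IsFractionRing.isFractionRing_of_isDomain_of_isLocalization P.primeCompl _ K
  obtain ⟨v, hv⟩ := place_of (K := K) (k := k) (R := Localization.AtPrime P)
    (IsLocalization.lift (M := P.primeCompl) hφ) (by
      intro r hr
      obtain ⟨⟨a, s⟩, rfl⟩ := IsLocalization.mk'_surjective P.primeCompl r
      have ha : a ∈ P.primeCompl := by
        intro haP
        apply hr
        rw [IsLocalization.lift_mk'_spec, mul_zero]
        exact (hmem a).1 haP
      exact (IsLocalization.AtPrime.isUnit_mk'_iff (Localization.AtPrime P) P a s).2 ha)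
  refine ⟨v, fun x => ?_⟩
  have h1 := hv (algebraMap (𝓞 K) _ x)
  rw [← IsScalarTower.algebraMap_apply, IsLocalization.lift_eq] at h1
  exact h1

end Pool.Agent.W496.FK.PLQ
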