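import Pool.Agent.W346.FD.ULT
import Pool.Agent.W659.FK.Stm

set_option autoImplicit false

namespace Pool.Agent.W496.FK.ULTK

open MvPolynomial Pool.Agent.W659.FD Pool.Agent.W346.FD

attribute [local instance] MvPolynomial.algebraMvPolynomial

/-- integer polynomial equations solvable in fields of arbitrarily large prime characteristic are
solvable over the complex numbers -/
theorem transfer {σ : Type} [Finite σ] (I : Ideal (MvPolynomial σ ℤ))
    (h : ∀ N : ℕ, ∃ p : ℕ, p.Prime ∧ N ≤ p ∧ ∃ (k : Type) (_ : Field k) (_ : CharP k p)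
      (x : σ → k), ∀ f ∈ I, aeval x f = 0) :
    ∃ x : σ → ℂ, ∀ f ∈ I, aeval x f = 0 := by
  classical
  set J : Ideal (MvPolynomial σ ℚ) :=
    I.map (algebraMap (MvPolynomial σ ℤ) (MvPolynomial σ ℚ)) with hJ
  have hJtop : J ≠ ⊤ := by
    intro htop
    have h1 : (1 : MvPolynomial σ ℚ) ∈ J := by
      rw [htop]
      trivial
    rw [hJ, IsLocalization.mem_map_algebraMap_iff
      (Submonoid.map C (nonZeroDivisors ℤ)) (MvPolynomial σ ℚ)] at h1
    obtain ⟨⟨a, s⟩, hs⟩ := h1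
    obtain ⟨N, hN, hNs⟩ := Submonoid.mem_map.1 s.2
    have hN0 : N ≠ 0 := nonZeroDivisors.ne_zero hN
    have h2 : (a : MvPolynomial σ ℤ) = C N := by
      have h3 : Function.Injective (algebraMap (MvPolynomial σ ℤ) (MvPolynomial σ ℚ)) := by
        have h4 : (algebraMap (MvPolynomial σ ℤ) (MvPolynomial σ ℚ)) =
            MvPolynomial.map (algebraMap ℤ ℚ) := rfl
        rw [h4]
        exact MvPolynomial.map_injective _ (algebraMap ℤ ℚ).injective_int
      apply h3
      rw [one_mul] at hs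
      rw [← hs]
      congr 1
      exact hNs.symm
    obtain ⟨p, hp, hNp, k, hk, hc, x, hx⟩ := h (N.natAbs + 1)
    have h3 := hx _ a.2
    rw [h2] at h3
    simp only [eq_intCast, map_intCast] at h3
    rw [CharP.intCast_eq_zero_iff k p] at h3
    have h4 := Int.natAbs_dvd_natAbs.2 h3
    rw [Int.natAbs_natCast] at h4
    have h5 := Nat.le_of_dvd (Int.natAbs_pos.2 hN0) h4
    omega
  obtain ⟨m, hm, hJm⟩ := J.exists_le_maximal hJtop
  letI : Field (MvPolynomial σ ℚ ⧸ m) := Ideal.Quotient.field m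
  haveI : Module.Finite ℚ (MvPolynomial σ ℚ ⧸ m) := finite_of_finite_type_of_isJacobsonRing _ _
  haveI : Algebra.IsAlgebraic ℚ (MvPolynomial σ ℚ ⧸ m) := Algebra.IsAlgebraic.of_finite _ _
  let e : (MvPolynomial σ ℚ ⧸ m) →ₐ[ℚ] ℂ := IsAlgClosed.lift
  refine ⟨fun i => e (Ideal.Quotient.mk m (X i)), fun f hf => ?_⟩
  have h1 : algebraMap (MvPolynomial σ ℤ) (MvPolynomial σ ℚ) f ∈ m :=
    hJm (Ideal.mem_map_of_mem _ hf)
  have h2 : (aeval (fun i => e (Ideal.Quotient.mk m (X i))) : MvPolynomial σ ℤ →ₐ[ℤ] ℂ).toRingHom =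
      ((e : (MvPolynomial σ ℚ ⧸ m) →+* ℂ).comp (Ideal.Quotient.mk m)).comp
        (algebraMap (MvPolynomial σ ℤ) (MvPolynomial σ ℚ)) := by
    apply MvPolynomial.ringHom_ext
    · intro z
      simp
    · intro i
      have h4 : (algebraMap (MvPolynomial σ ℤ) (MvPolynomial σ ℚ)) (X i) = X i := by
        have h4 : (algebraMap (MvPolynomial σ ℤ) (MvPolynomial σ ℚ)) =
            MvPolynomial.map (algebraMap ℤ ℚ) := rfl
        rw [h4, map_X]
      simp [h4]
  have h3 : aeval (fun i => e (Ideal.Quotient.mk m (X i))) f =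
      (aeval (fun i => e (Ideal.Quotient.mk m (X i))) : MvPolynomial σ ℤ →ₐ[ℤ] ℂ).toRingHom f := rfl
  rw [h3, h2]
  show e (Ideal.Quotient.mk m (algebraMap (MvPolynomial σ ℤ) (MvPolynomial σ ℚ) f)) = 0
  rw [Ideal.Quotient.eq_zero_iff_mem.2 h1, map_zero]

theorem main : Pool.Agent.W659.FK.S_ULTK := by
  intro r n a b F hF
  by_contra hcon
  push Not at hcon
  obtain ⟨D, hD⟩ := deg_bound F
  obtain ⟨x, hx⟩ := transfer (Ideal.span (eqs D a b F)) (by
    intro N
    obtain ⟨p, hp, hNp, k, hk, hc, V, hV, c, g, hcg⟩ := hcon N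
    refine ⟨p, hp, hNp, k, hk, hc, ?_⟩
    -- a good g
    obtain ⟨g', hg', hg'D⟩ : ∃ g' : MvPolynomial (Fin n) k,
        spec F V = C c * g' ^ 2 ∧ g'.totalDegree ≤ D := by
      by_cases h1 : c = 0 ∨ g = 0
      · refine ⟨0, ?_, by simp⟩
        rw [hcg]
        rcases h1 with h1 | h1 <;> simp [h1]
      · push Not at h1
        refine ⟨g, hcg, ?_⟩
        have h2 := hD k (fun ij => V ij.1 ij.2)
        rw [← spec_eq, hcg, pow_two, totalDegree_mul_of_isDomain
          (by rw [Ne, C_eq_zero]; exact h1.1) (mul_ne_zero h1.2 h1.2),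
          totalDegree_mul_of_isDomain h1.2 h1.2] at h2
        omega
    -- inverses
    have hW : ∀ i, ∃ W : Fin 3 → k, ∑ j, V i j * W j = 1 := by
      intro i
      obtain ⟨j, hj⟩ := Function.ne_iff.1 (hV i).1
      refine ⟨Pi.single j (V i j)⁻¹, ?_⟩
      rw [Finset.sum_eq_single j]
      · rw [Pi.single_eq_same]
        exact mul_inv_cancel₀ hj
      · intro k _ hk
        rw [Pi.single_eq_of_ne hk, mul_zero]
      · intro h
        exact absurd (Finset.mem_univ j) h
    choose W hW using hW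
    refine ⟨Sum.elim (Sum.elim (fun ij => V ij.1 ij.2) (fun ij => W ij.1 ij.2))
      (Sum.elim (fun _ => c) (fun α => g'.coeff α.1)), ?_⟩
    rw [sys_iff]
    refine ⟨fun i => ?_, fun i => ?_, ?_⟩
    · exact (hV i).2
    · exact hW i
    · simp only [Sum.elim_inl, Sum.elim_inr]
      rw [gg_coeff n D g' hg'D]
      exact hg')
  rw [sys_iff] at hx
  obtain ⟨h1, h2, h3⟩ := hx
  obtain ⟨z, hz⟩ := IsAlgClosed.exists_pow_nat_eq (x (Sum.inr (Sum.inl ()))) (n := 2) (by norm_num)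
  refine hF (fun i j => x (Sum.inl (Sum.inl (i, j)))) (fun i => ⟨?_, h1 i⟩)
    (C z * gg n D (fun α => x (Sum.inr (Sum.inr α)))) ?_
  · intro h0
    have h4 := h2 i
    have h5 : ∀ j, x (Sum.inl (Sum.inl (i, j))) = 0 := fun j => congrFun h0 j
    simp [h5] at h4
  · rw [mul_pow, ← C_pow, hz]
    exact h3

end Pool.Agent.W496.FK.ULTK
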